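import Pool.Agent.helper20.VVO.Spec

/-!
# Project vvo (MP_069684_lc): row VVN (co-nondeterministic form of Valiant-Vazirani; port of helper51/ISO/VVA.lean)
-/

set_option autoImplicit false

open Filter Topology

namespace Pool.Agent.VVO

open Pool.Agent.PB Pool.Agent.ISO Pool.Agent.ISA

lemma VVN_pol (K d : ℕ) : ∃ c : ℕ, ∀ n : ℕ, K * (n + 1) ^ d ≤ n ^ c + c := by
  refine ⟨2 * d + K + K * 2 ^ d, fun n => ?_⟩
  rcases Nat.lt_or_ge n 2 with h | h
  · have h1 : (n + 1) ^ d ≤ 2 ^ d := Nat.pow_le_pow_left (by omega) d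
    have h2 : K * (n + 1) ^ d ≤ K * 2 ^ d := Nat.mul_le_mul_left K h1
    omega
  · have h1 : (n + 1) ^ d ≤ (n ^ 2) ^ d := Nat.pow_le_pow_left (by nlinarith) d
    have h2 : K ≤ n ^ K := by
      calc K ≤ 2 ^ K := Nat.lt_two_pow_self.le
        _ ≤ n ^ K := Nat.pow_le_pow_left h K
    have h3 : K * (n + 1) ^ d ≤ n ^ K * (n ^ 2) ^ d := Nat.mul_le_mul h2 h1
    have h4 : n ^ K * (n ^ 2) ^ d = n ^ (2 * d + K) := by
      rw [← pow_mul, ← pow_add]
      ring_nf
    have h5 : n ^ (2 * d + K) ≤ n ^ (2 * d + K + K * 2 ^ d) := Nat.pow_le_pow_right (by omega) (by omega)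
    omega

lemma VVN_le (c n : ℕ) : n ^ c + c ≤ (c + 1) * (n + 1) ^ c := by
  have h1 : n ^ c ≤ (n + 1) ^ c := Nat.pow_le_pow_left (by omega) c
  have h2 : 1 ≤ (n + 1) ^ c := Nat.one_le_pow _ _ (by omega)
  nlinarith

theorem VVN (hCIR : ISO.CIR_stmt) (hVVL : ISO.VVL_stmt) (hIPS : ISO.IPS_stmt) (hNCL : NCL_stmt) : VVN_stmt := by
  classical
  intro hPU A hA
  obtain ⟨c, hA⟩ := hA
  obtain ⟨c1, hc1⟩ := VVN_pol (c + 1 + 100 * (c + 4) ^ 3) (3 * c)
  obtain ⟨c2, hc2⟩ := hPU c1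
  obtain ⟨c3, hc3⟩ := VVN_pol (64 * (c + 4) * (2 * c2 + 4) + 10 * (64 * (c + 4) + 1) ^ 2) (3 * c + c2 + 4)
  refine ⟨c3, fun n => ?_⟩
  obtain ⟨w, hw, f, hf, hx⟩ := hA n
  obtain ⟨h, hh⟩ := hVVL n w f
  have hone : ∀ d : ℕ, 1 ≤ (n + 1) ^ d := fun d => Nat.one_le_pow _ _ (by omega)
  have hwc := VVN_le c n
  have hw3 : w + 3 ≤ (c + 4) * (n + 1) ^ c := by
    have := hone c
    nlinarith
  have hmon : (n + 1) ^ c ≤ (n + 1) ^ (3 * c) := Nat.pow_le_pow_right (by omega) (by omega)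
  have hsz : n ^ c + c + 100 * (w + 3) ^ 3 ≤ n ^ c1 + c1 := by
    refine le_trans ?_ (hc1 n)
    have e1 : (w + 3) ^ 3 ≤ (c + 4) ^ 3 * (n + 1) ^ (3 * c) := by
      calc (w + 3) ^ 3 ≤ ((c + 4) * (n + 1) ^ c) ^ 3 := Nat.pow_le_pow_left hw3 3
        _ = (c + 4) ^ 3 * (n + 1) ^ (3 * c) := by
          rw [mul_pow, ← pow_mul, mul_comm c 3]
    have e2 : (c + 1) * (n + 1) ^ c ≤ (c + 1) * (n + 1) ^ (3 * c) := Nat.mul_le_mul_left _ hmon
    nlinarith
  have hFex : ∀ l : Fin (64 * (w + 3) * (n + 1)), ∃ F : BF (n + w),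
      ∀ x y, F (Fin.append x y) = true ↔ f (Fin.append x y) = true ∧ hsat (h l) y := by
    intro l
    refine ⟨fun z => decide (f z = true ∧ hsat (h l) (fun j => z (Fin.natAdd n j))), fun x y => ?_⟩
    have e : (fun j => Fin.append x y (Fin.natAdd n j)) = y := by
      funext j
      exact Fin.append_right x y j
    rw [decide_eq_true_iff, e]
  choose F hF using hFex
  have hFs : ∀ l, Size std (F l) (n ^ c1 + c1) := fun l =>
    hCIR.2.2.1 _ _ _ _ (hIPS.2 n w (n ^ c + c) f (F l) (h l) hf (hF l)) hsz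
  have hwc1 : w ≤ n ^ c1 + c1 := by
    have : 0 ≤ 100 * (w + 3) ^ 3 := Nat.zero_le _
    omega
  have hDex : ∀ l, ∃ D : BF n, NSize D (n ^ c2 + c2) ∧ (∀ x, wit (F l) x = 1 → D x = false) ∧
      ∀ x, wit (F l) x = 0 → D x = true := fun l => hc2 n w (F l) hwc1 (hFs l)
  choose D hD using hDex
  have hiff : ∀ x, PB.compl A n x = true ↔ ∀ l, D l x = true := by
    intro x
    have hcm : PB.compl A n x = true ↔ ¬ (A n x = true) := by
      unfold PB.compl
      cases A n x <;> simp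
    rw [hcm]
    constructor
    · intro hAx l
      refine (hD l).2.2 x ?_
      unfold wit
      rw [Finset.card_eq_zero, Finset.filter_eq_empty_iff]
      intro y _ hy
      exact hAx ((hx x).mpr ⟨y, ((hF l x y).mp hy).1⟩)
    · intro hall hAx
      obtain ⟨y, hy⟩ := (hx x).mp hAx
      have h1 : 1 ≤ wit f x := by
        unfold wit
        exact Finset.card_pos.mpr ⟨y, Finset.mem_filter.mpr ⟨Finset.mem_univ _, hy⟩⟩
      obtain ⟨l, hl⟩ := hh x h1
      have h2 : wit (F l) x = 1 := by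
        rw [← hl]
        unfold wit
        refine congrArg Finset.card (Finset.ext fun y => ?_)
        rw [Finset.mem_filter, Finset.mem_filter, hF l x y]
      have h3 := (hD l).2.1 x h2
      rw [hall l] at h3
      exact absurd h3 (by decide)
  have hiff2 : ∀ x, PB.compl A n x = true ↔
      64 * (w + 3) * (n + 1) ≤ (Finset.univ.filter fun t => D t x = true).card := by
    intro x
    rw [hiff x]
    constructor
    · intro hall
      have : (Finset.univ.filter fun t => D t x = true) = Finset.univ := by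
        rw [Finset.filter_eq_self]
        intro t _
        exact hall t
      rw [this, Finset.card_univ, Fintype.card_fin]
    · intro hle l
      have h4 : (Finset.univ.filter fun t => D t x = true) = Finset.univ := by
        refine Finset.eq_univ_of_card _ (le_antisymm (Finset.card_le_univ _) ?_)
        rw [Fintype.card_fin]
        exact hle
      have h5 : l ∈ (Finset.univ.filter fun t => D t x = true) := by
        rw [h4]
        exact Finset.mem_univ l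
      exact (Finset.mem_filter.1 h5).2
  have hS := hNCL.2.2.1 n (n ^ c2 + c2) (64 * (w + 3) * (n + 1)) (64 * (w + 3) * (n + 1)) D (PB.compl A n)
    (fun l => (hD l).1) hiff2
  have hS2 : NSize (PB.compl A n) (n ^ c3 + c3) := by
    refine hNCL.2.1 n _ _ _ hS (le_trans ?_ (hc3 n))
    have e1 : 2 * (n ^ c2 + c2) + n + 1 ≤ (2 * c2 + 4) * (n + 1) ^ (c2 + 1) := by
      have h6 := VVN_le c2 n
      have h7 := hone c2
      have h8 : (n + 1) ^ (c2 + 1) = (n + 1) ^ c2 * (n + 1) := pow_succ _ _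
      rw [h8]
      have h9 : (n + 1) ≤ (n + 1) ^ c2 * (n + 1) := Nat.le_mul_of_pos_left _ h7
      have h10 : (n + 1) ^ c2 ≤ (n + 1) ^ c2 * (n + 1) := Nat.le_mul_of_pos_right _ (by omega)
      have h11 : 2 * (n ^ c2 + c2) ≤ 2 * ((c2 + 1) * ((n + 1) ^ c2 * (n + 1))) :=
        Nat.mul_le_mul_left 2 (h6.trans (Nat.mul_le_mul_left _ h10))
      nlinarith
    have e2 : 64 * (w + 3) * (n + 1) ≤ 64 * (c + 4) * (n + 1) ^ (c + 1) := by
      rw [pow_succ]
      have := Nat.mul_le_mul_right (n + 1) hw3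
      nlinarith
    have e3 : 64 * (w + 3) * (n + 1) + 1 ≤ (64 * (c + 4) + 1) * (n + 1) ^ (c + 1) := by
      have := hone (c + 1)
      nlinarith
    have e4 : (64 * (w + 3) * (n + 1) + 1) ^ 2 ≤ (64 * (c + 4) + 1) ^ 2 * (n + 1) ^ (2 * (c + 1)) := by
      calc (64 * (w + 3) * (n + 1) + 1) ^ 2 ≤ ((64 * (c + 4) + 1) * (n + 1) ^ (c + 1)) ^ 2 :=
            Nat.pow_le_pow_left e3 2
        _ = _ := by rw [mul_pow, ← pow_mul, mul_comm (c + 1) 2]
    have e5 : (n + 1) ^ ((c + 1) + (c2 + 1)) ≤ (n + 1) ^ (3 * c + c2 + 4) :=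
      Nat.pow_le_pow_right (by omega) (by omega)
    have e6 : (n + 1) ^ (2 * (c + 1)) ≤ (n + 1) ^ (3 * c + c2 + 4) := Nat.pow_le_pow_right (by omega) (by omega)
    calc 64 * (w + 3) * (n + 1) * (2 * (n ^ c2 + c2) + n + 1) + 10 * (64 * (w + 3) * (n + 1) + 1) ^ 2
        ≤ (64 * (c + 4) * (n + 1) ^ (c + 1)) * ((2 * c2 + 4) * (n + 1) ^ (c2 + 1)) +
          10 * ((64 * (c + 4) + 1) ^ 2 * (n + 1) ^ (2 * (c + 1))) :=
          Nat.add_le_add (Nat.mul_le_mul e2 e1) (Nat.mul_le_mul_left 10 e4)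
      _ = 64 * (c + 4) * (2 * c2 + 4) * (n + 1) ^ ((c + 1) + (c2 + 1)) +
          10 * (64 * (c + 4) + 1) ^ 2 * (n + 1) ^ (2 * (c + 1)) := by
          rw [pow_add (n + 1) (c + 1) (c2 + 1)]
          ring
      _ ≤ 64 * (c + 4) * (2 * c2 + 4) * (n + 1) ^ (3 * c + c2 + 4) +
          10 * (64 * (c + 4) + 1) ^ 2 * (n + 1) ^ (3 * c + c2 + 4) :=
          Nat.add_le_add (Nat.mul_le_mul_left _ e5) (Nat.mul_le_mul_left _ e6)
      _ = (64 * (c + 4) * (2 * c2 + 4) + 10 * (64 * (c + 4) + 1) ^ 2) * (n + 1) ^ (3 * c + c2 + 4) := by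
          ring
  obtain ⟨v, hv, g, hg, hg2⟩ := hS2
  exact ⟨v, hv, g, hg, hg2⟩

end Pool.Agent.VVO
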