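import Pool.Agent.helper20.VVO.Spec
import Pool.Agent.helper44.ISO.TSZ

/-!
# Project vvo (MP_069684_lc): row TDT (size of the deterministic test)
-/

set_option autoImplicit false

open Filter Topology

namespace Pool.Agent.VVO

open Pool.Agent.PB Pool.Agent.ISO Pool.Agent.ISA

theorem TDT (hCIR : ISO.CIR_stmt) (hCNT : ISO.CNT_stmt) (hSEL : ISO.SEL_stmt) : TDT_stmt := by
  classical
  intro n w k N l a B Q W S i X u F hW hQ hF
  have h1 : ∀ P : Finset (Fin k), Size std (fun x : Fin n → Bool =>
      W (Fin.append (enc N (Function.update X i x)) (encP P (zp P u)))) (B + (N + (k + k * w))) := by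
    intro P
    refine hSEL n (N + (k + k * w)) B W
      (fun l x => (Fin.append (enc N (Function.update X i x)) (encP P (zp P u))) l) hW ?_
    intro l
    refine Fin.addCases (fun l' => ?_) (fun l' => ?_) l
    · simp only [Fin.append_left]
      exact TSZ_bit N i X l'
    · simp only [Fin.append_right]
      exact Or.inl ⟨_, rfl⟩
  have hc : Fintype.card ↥(S.powersetCard l) ≤ k.choose l := by
    rw [Fintype.card_coe, Finset.card_powersetCard]
    refine Nat.choose_le_choose l ((Finset.card_le_univ S).trans ?_)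
    rw [Fintype.card_fin]
  have h2 := hCNT ↥(S.powersetCard l) n (B + (N + (k + k * w)))
    (fun P x => W (Fin.append (enc N (Function.update X i x)) (encP (P : Finset (Fin k)) (zp P u)))) F
    (fun c => a ≤ c) (fun P => h1 P) (by
      intro x
      rw [hF x]
      have h3 := TSZ_card (S.powersetCard l) (fun P : Finset (Fin k) =>
        W (Fin.append (enc N (Function.update X i x)) (encP P (zp P u))) = true)
      unfold cnt
      rw [h3]
      refine Iff.of_eq ?_
      congr)
  refine hCIR.2.2.1 n _ _ _ h2 ?_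
  set c := Fintype.card ↥(S.powersetCard l) with hcdef
  have hc1 : c + 1 ≤ Q := by omega
  have hcQ : c ≤ Q := by omega
  have hB : B + (N + (k + k * w)) ≤ Q := by omega
  have hQ2 : 2 ≤ Q := by omega
  calc c * (B + (N + (k + k * w))) + 10 * (c + 1) ^ 2 ≤ Q * Q + 10 * Q ^ 2 := by gcongr
    _ = 11 * Q ^ 2 := by ring
    _ ≤ 2 ^ 8 * Q ^ 2 := Nat.mul_le_mul_right _ (by norm_num)
    _ ≤ Q ^ 8 * Q ^ 2 := Nat.mul_le_mul_right _ (Nat.pow_le_pow_left hQ2 8)
    _ = Q ^ 10 := by ring

end Pool.Agent.VVO
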